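import Pool.Agent.MP_8be872_ag.H63.SpecA
import Pool.Agent.MP_8be872_ag.H63.LocA

/-! Killing generators whose high powers span an acyclic ideal. -/

namespace Pool.Agent.MP_8be872_ag.H87

open Finset H38 H56 H63 MvPolynomial

variable {E O J Γ : Type} [Fintype E] [Fintype O] [Fintype J] [DecidableEq E] [DecidableEq O]
  [DecidableEq J] [AddCommGroup Γ] {Al : Gn E O J → Prop} {c : Gn E O J → Γ}
  {δ δ₀ : Gn E O J → Op E O J} {ω : Op E O J} {f f₀ : J → MvPolynomial (E ⊕ J) ℂ}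
  {K : Gn E O J → Prop} {L : List (Gn E O J)} {x : Sp (E ⊕ J) (O ⊕ J)}

open Classical in
/-- The auxiliary grading. -/
noncomputable def grd (K : Gn E O J → Prop) (L : List (Gn E O J)) (g : Gn E O J) : ℕ :=
  if K g then 2 else if g ∈ L then 1 else 0

theorem le_ws (gr : Gn E O J → ℕ) (μ : Gn E O J → ℕ) (g : Gn E O J) (h : μ g ≠ 0) :
    gr g ≤ ws gr μ := by
  have h1 : μ g • gr g ≤ ws gr μ :=
    Finset.single_le_sum (f := fun g => μ g • gr g) (fun _ _ => Nat.zero_le _) (mem_univ g)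
  exact le_trans (Nat.le_mul_of_pos_left _ (Nat.pos_of_ne_zero h)) h1

theorem ws_grd {μ : Gn E O J → ℕ} (h : ¬ has K μ) : ws (grd K L) μ = cnt (· ∈ L) μ := by
  unfold ws cnt
  refine Finset.sum_congr rfl fun g _ => ?_
  by_cases h0 : μ g = 0
  · simp [h0]
  · have hk : ¬ K g := fun hk => h ⟨g, hk, h0⟩
    by_cases hl : g ∈ L <;> simp [grd, hk, hl]

theorem two_le_ws {μ : Gn E O J → ℕ} (h : has K μ) : 2 ≤ ws (grd K L) μ := by
  obtain ⟨g, hk, h0⟩ := h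
  have := le_ws (grd K L) μ g h0
  simpa [grd, hk] using this

theorem has_iff {μ : Gn E O J → ℕ} :
    has (fun g => K g ∨ g ∈ L) μ ↔ ws (grd K L) μ ≠ 0 := by
  by_cases h : has K μ
  · have := two_le_ws (L := L) h
    obtain ⟨g, hk, h0⟩ := h
    exact ⟨fun _ => by omega, fun _ => ⟨g, Or.inl hk, h0⟩⟩
  · rw [ws_grd h, cnt_ne_zero]
    exact ⟨fun ⟨g, hg, h0⟩ => ⟨g, hg.resolve_left fun hk => h ⟨g, hk, h0⟩, h0⟩,
      fun ⟨g, hg, h0⟩ => ⟨g, Or.inr hg, h0⟩⟩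

theorem ws_pair (gr : Gn E O J → ℕ) (μ : Gn E O J → ℕ) :
    ws (fun g => (c g, (gr g : ℤ))) μ = (ws c μ, ((ws gr μ : ℕ) : ℤ)) := by
  refine Prod.ext ?_ ?_
  · exact map_ws (AddMonoidHom.fst Γ ℤ) _ μ
  · exact (map_ws (AddMonoidHom.snd Γ ℤ) _ μ).trans (map_ws (Nat.castAddMonoidHom ℤ) gr μ).symm

theorem ws_cast (gr : Gn E O J → ℕ) (μ : Gn E O J → ℕ) :
    ws (fun g => (gr g : ℤ)) μ = ((ws gr μ : ℕ) : ℤ) :=
  (map_ws (Nat.castAddMonoidHom ℤ) gr μ).symm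

theorem ZZ_pair (gr : Gn E O J → ℕ) (J₀ J₁ : Finset J) (γ : Γ) (k : ℤ) (p : Bool) :
    ZZ Al (fun g => (c g, (gr g : ℤ))) J₀ J₁ (γ, k) p =
      ZZ Al c J₀ J₁ γ p ⊓ mono fun μ => ((ws gr μ : ℕ) : ℤ) = k := by
  unfold ZZ
  rw [← mono_and]
  congr 1
  funext μ
  rw [ws_pair, Prod.mk.injEq]
  exact propext ⟨fun ⟨a, ⟨b, d⟩, e⟩ => ⟨⟨a, b, e⟩, d⟩, fun ⟨⟨a, b, e⟩, d⟩ => ⟨a, ⟨b, d⟩, e⟩⟩

theorem ZZ_pat (h : Good Al c δ ω f) (j₀ : J) (γ : Γ) (p : Bool) :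
    ZZ Al c {j₀} ∅ γ p ≤ mono (pat {j₀}) := by
  refine mono_le fun μ hμ j hj => ?_
  rcases hμ.1.1 _ hj with h1 | ⟨j', h1, -⟩ | ⟨j', hj', h1⟩
  · exact absurd h1 (h.alE j)
  · cases h1
  · cases h1
    simpa using hj'

theorem top_pat (x : Sp (E ⊕ J) (O ⊕ J)) : x ∈ mono (pat (univ : Finset J)) :=
  mem_mono.2 fun _ _ _ j _ => mem_univ j

/-- Membership in the relations plus a monomial subspace, inside a cochain group. -/
theorem mem_rel_sup (h : Good Al c δ ω f) {J₀ J₁ : Finset J} {γ : Γ} {p : Bool}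
    {F : (Gn E O J → ℕ) → Prop} (hx : x ∈ ZZ Al c J₀ J₁ γ p) (hB : x ∈ rel f ⊔ mono F) :
    ∃ y ∈ ZZ Al c J₀ J₁ γ p ⊓ mono F, x - y ∈ rel f := by
  obtain ⟨r, hr, z, hz, rfl⟩ := Submodule.mem_sup.1 hB
  refine ⟨proj (fun μ => cech Al J₀ J₁ μ ∧ ws c μ = γ ∧ od μ = p) z,
    ⟨proj_mem z, proj_mem_of hz⟩, ?_⟩
  have h1 := proj_eq_self hx
  rw [map_add] at h1
  rw [← h1, add_sub_cancel_right]
  refine proj_rel (A := univ) (fun j _ m hm μ hμ => ?_) (top_pat r) hr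
  obtain ⟨a, b, d⟩ := h.cech_add J₀ J₁ j m hm μ hμ
  rw [a, b, d]

theorem pol_inj {p q : MvPolynomial (E ⊕ J) ℂ}
    (h : (pol p : Sp (E ⊕ J) (O ⊕ J)) = pol q) : p = q := by
  have := congrFun h ∅
  simpa [pol] using this

/-- The filtration. -/
def FF (K : Gn E O J → Prop) (L : List (Gn E O J)) (k : ℕ) (μ : Gn E O J → ℕ) : Prop :=
  has K μ ∨ k ≤ ws (grd K L) μ

theorem FF_eq (k : ℕ) : (fun μ => has K μ ∨ k ≤ cnt (· ∈ L) μ) = FF K L k := by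
  funext μ
  by_cases h : has K μ
  · simp [FF, h]
  · simp [FF, h, ws_grd h]

section

variable {ρ : Gn E O J → ℤ} (h : Good Al c δ ω f) (hT : Tri Al δ K L ρ)
include h hT

theorem grd_tv (j : J) : grd K L (tv j) = 0 := by
  have h1 : ¬ K (tv j) := fun hk => h.alT j (hT.kAl _ hk)
  have h2 : tv j ∉ L := fun hk => h.alT j (hT.lAl _ hk).1
  simp [grd, h1, h2]

theorem grd_ev (j : J) : grd K L (ev j) = 0 := by
  have h1 : ¬ K (ev j) := fun hk => h.alE j (hT.kAl _ hk)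
  have h2 : ev j ∉ L := fun hk => h.alE j (hT.lAl _ hk).1
  simp [grd, h1, h2]

omit h in
theorem grd_L {g : Gn E O J} (hg : g ∈ L) : grd K L g = 1 := by
  simp [grd, (hT.lAl g hg).2, hg]

theorem grd_mono (g : Gn E O J) : δ g ∈ words fun μ => grd K L g ≤ ws (grd K L) μ := by
  by_cases hk : K g
  · refine words_le (fun μ hμ => ?_) (hT.kst g hk)
    simpa [grd, hk] using two_le_ws (L := L) hμ
  · by_cases hl : g ∈ L
    · refine words_le (fun μ hμ => ?_) (hT.lst g hl)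
      rw [grd_L hT hl]
      refine Nat.one_le_iff_ne_zero.2 (has_iff.1 ?_)
      rcases hμ with ⟨g', a, b⟩ | ⟨⟨g', a, b⟩, -⟩
      · exact ⟨g', Or.inl a, b⟩
      · exact ⟨g', Or.inr a, b⟩
    · exact words_le (fun μ _ => by simp [grd, hk, hl]) (h.dw g)

omit h in
theorem kl_Al (g : Gn E O J) (hg : K g ∨ g ∈ L) : Al g :=
  hg.elim (hT.kAl g) fun hl => (hT.lAl g hl).1

omit h in
theorem kl_st (g : Gn E O J) (hg : K g ∨ g ∈ L) : δ g ∈ words (has fun g => K g ∨ g ∈ L) := by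
  rcases hg with hk | hl
  · exact words_le (fun μ ⟨g', a, b⟩ => ⟨g', Or.inl a, b⟩) (hT.kst g hk)
  · refine words_le (fun μ hμ => ?_) (hT.lst g hl)
    rcases hμ with ⟨g', a, b⟩ | ⟨⟨g', a, b⟩, -⟩
    · exact ⟨g', Or.inl a, b⟩
    · exact ⟨g', Or.inr a, b⟩

theorem Dloc_FF (k : ℕ) (hx : x ∈ mono (FF K L k)) : Dloc δ ω f ∅ x ∈ mono (FF K L k) := by
  unfold FF at hx ⊢
  rw [mono_or] at hx ⊢
  obtain ⟨a, ha, b, hb, rfl⟩ := Submodule.mem_sup.1 hx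
  rw [map_add]
  exact Submodule.add_mem_sup (h.Dloc_has ∅ hT.kAl hT.kst ha)
    (h.Dloc_ge ∅ _ (grd_tv h hT) (grd_mono h hT) k hb)

theorem isCx_FF (j₀ : J) (γ : Γ) (k : ℕ) : IsCx (Dloc δ ω f ∅)
    (fun p => ZZ Al c {j₀} ∅ γ p ⊓ mono (FF K L k)) (rel f ⊔ mono (has K)) := by
  have h0 := h.isCx_kill (A := ∅) (J₀ := {j₀}) (J₁ := ∅) (empty_subset _) γ hT.kAl hT.kst
  exact ⟨fun p x hx => ⟨h0.mapZ p x hx.1, Dloc_FF h hT k hx.2⟩,
    fun p x hx => h0.mapB p x hx.1, fun p x hx => h0.sq p x hx.1⟩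

theorem ses_FF (j₀ : J) (γ : Γ) (k : ℕ) : Ses (Dloc δ ω f ∅)
    (fun p => ZZ Al c {j₀} ∅ γ p ⊓ mono (FF K L k))
    (fun p => ZZ Al c {j₀} ∅ γ p ⊓ mono (FF K L (k + 1))) (rel f ⊔ mono (has K))
    (rel f ⊔ mono (FF K L (k + 1))) := by
  refine ⟨isCx_FF h hT j₀ γ k, fun p => inf_le_inf_left _ (mono_le fun μ hμ => ?_),
    (isCx_FF h hT j₀ γ (k + 1)).mapZ, fun p x hx => ⟨fun hB => ?_, fun ⟨y, hy, hB⟩ => ?_⟩⟩
  · exact hμ.imp_right fun h => by omega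
  · obtain ⟨y, hy, hr⟩ := mem_rel_sup h hx.1 hB
    exact ⟨y, hy, Submodule.mem_sup_left hr⟩
  · refine TL.of_sub (y := y) ?_ (Submodule.mem_sup_right hy.2)
    exact sup_le_sup_left (mono_le fun μ hμ => Or.inl hμ) _ hB

variable (hf : ∀ j, (pol (f₀ j) : Sp (E ⊕ J) (O ⊕ J)) =
  proj (fun μ => ws (grd K L) μ = 0) (pol (f j)))
include hf

omit h hT in
theorem kill_f₀ {K' : Gn E O J → Prop} (hK : ∀ g, K' g → K g ∨ g ∈ L) (j : J) :
    kill (O := O ⊕ J) K' (f₀ j) = f₀ j := by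
  refine pol_inj (O := O) ?_
  rw [(kill_sub K' (f₀ j)).2]
  refine proj_eq_self ?_
  rw [hf j]
  exact mono_le (fun μ hμ ⟨g, a, b⟩ => has_iff.1 ⟨g, hK g a, b⟩ hμ) (proj_mem _)

omit h hT in
theorem kill_f (j : J) : kill (O := O ⊕ J) (fun g => K g ∨ g ∈ L) (f j) = f₀ j := by
  refine pol_inj (O := O) ?_
  rw [(kill_sub _ (f j)).2, hf j]
  congr 2
  funext μ
  rw [has_iff, not_not]

omit h hT hf in
theorem init_le {f' : J → MvPolynomial (E ⊕ J) ℂ} (gr : Gn E O J → ℕ) (j₀ : J)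
    (ht : ∀ j, (pol (f' j) : Sp (E ⊕ J) (O ⊕ J)) ∈ mono tfree) (h0 : gr (tv j₀) = 0)
    (hF₀ : (pol (f₀ j₀) : Sp (E ⊕ J) (O ⊕ J)) = proj (fun μ => ws gr μ = 0) (pol (f' j₀)))
    (hA : x ∈ mono (pat {j₀})) (k : ℕ) :
    (x ∈ rel f' → x ∈ (mono fun μ => k ≤ ws gr μ) → proj (fun μ => ws gr μ = k) x ∈ rel f₀) ∧
    (x ∈ rel f₀ → x ∈ (mono fun μ => ws gr μ = k) →
      ∃ y ∈ mono fun μ => k + 1 ≤ ws gr μ, x - y ∈ rel f') := by
  have ec : ∀ k : ℕ, (fun μ => ws (fun g => (gr g : ℤ)) μ = (k : ℤ)) = fun μ => ws gr μ = k := by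
    intro k
    funext μ
    rw [ws_cast, Nat.cast_inj]
  have h1 : (pol (f' j₀) : Sp (E ⊕ J) (O ⊕ J)) ∈ mono fun μ => 0 ≤ ws (fun g => (gr g : ℤ)) μ :=
    mem_mono.2 fun _ _ _ => by rw [ws_cast]; exact Int.natCast_nonneg _
  have h2 : (pol (f₀ j₀) : Sp (E ⊕ J) (O ⊕ J)) =
      proj (fun μ => ws (fun g => (gr g : ℤ)) μ = 0) (pol (f' j₀)) := by
    have := ec 0
    rw [Nat.cast_zero] at this
    rw [this, hF₀]
  have h3 := rel_init (P := fun _ => True) ht (fun g => (gr g : ℤ)) j₀ (by rw [h0]; rfl) h1 h2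
    (fun j hj hne => absurd (mem_singleton.1 hj) hne) hA k
  refine ⟨fun a b => ?_, fun a b => ?_⟩
  · rw [← ec]
    exact h3.1 a (mono_le (fun μ hμ => by rw [ws_cast]; exact_mod_cast hμ) b)
  · obtain ⟨y, hy, hy'⟩ := h3.2 (fun _ _ _ _ _ _ => Iff.rfl) a
      (mono_le (fun μ hμ => ⟨trivial, by rw [ws_cast, hμ]⟩) b)
    refine ⟨y, mono_le (fun μ hμ => ?_) hy, hy'⟩
    have := hμ.2
    rw [ws_cast] at this
    omega

/-- The relations of the associated graded algebra. -/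
theorem gr_rel {j₀ : J} {γ : Γ} {p : Bool} {k : ℕ} (hx : x ∈ ZZ Al c {j₀} ∅ γ p)
    (hk : x ∈ mono fun μ => ws (grd K L) μ = k) :
    x ∈ rel f₀ ⊔ mono (has K) ↔ x ∈ rel f ⊔ mono (FF K L (k + 1)) := by
  have kT : ∀ j, ¬ K (tv j) := fun j hk => h.alT j (hT.kAl _ hk)
  have kE : ∀ j, ¬ K (ev j) := fun j hk => h.alE j (hT.kAl _ hk)
  have e0 : (fun j => kill (O := O ⊕ J) K (f₀ j)) = f₀ := by
    funext j
    exact kill_f₀ (K' := K) hf (fun g hg => Or.inl hg) j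
  have hK : x - proj (fun μ => ¬ has K μ) x ∈ mono (has K) :=
    mono_le (fun μ hμ => not_not.1 hμ) (sub_proj_mem x)
  have hk' : proj (fun μ => ¬ has K μ) x ∈ mono fun μ => ws (grd K L) μ = k := proj_mem_of hk
  have e1 := kill_rel (x := x) (f := f₀) kT kE
  rw [e0] at e1
  refine e1.trans ⟨?_, ?_⟩
  · intro hr
    have hp : proj (fun μ => ¬ has K μ) x ∈ mono (pat {j₀}) := proj_mem_of (ZZ_pat h j₀ γ p hx)
    obtain ⟨y, hy, hy'⟩ := (init_le (grd K L) j₀ h.tfree (grd_tv h hT j₀) (hf j₀) hp k).2 hr hk'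
    have e : x = (proj (fun μ => ¬ has K μ) x - y) + ((x - proj (fun μ => ¬ has K μ) x) + y) := by
      abel
    rw [e]
    exact Submodule.add_mem_sup hy' (Submodule.add_mem _ (mono_le (fun μ hμ => Or.inl hμ) hK)
      (mono_le (fun μ hμ => Or.inr hμ) hy))
  · intro hB
    obtain ⟨y, hy, hr⟩ := mem_rel_sup h hx hB
    have hr' := (kill_rel kT kE).1 (Submodule.mem_sup_left (T := mono (has K)) hr)
    have hy1 : proj (fun μ => ¬ has K μ) y ∈ mono fun μ => k + 1 ≤ ws (grd K L) μ := by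
      have h1 : proj (fun μ => ¬ has K μ) y ∈ mono fun μ => ¬ has K μ ∧ FF K L (k + 1) μ := by
        rw [mono_and]
        exact ⟨proj_mem y, proj_mem_of hy.2⟩
      exact mono_le (fun μ hμ => hμ.2.resolve_left hμ.1) h1
    have hfK : ∀ j, (pol (kill (O := O ⊕ J) K (f j)) : Sp (E ⊕ J) (O ⊕ J)) ∈ mono tfree := by
      intro j
      rw [(kill_sub K (f j)).2]
      exact proj_mem_of (h.tfree j)
    have hF₀ : (pol (f₀ j₀) : Sp (E ⊕ J) (O ⊕ J)) =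
        proj (fun μ => ws (grd K L) μ = 0) (pol (kill (O := O ⊕ J) K (f j₀))) := by
      rw [(kill_sub K (f j₀)).2, proj_proj, hf j₀]
      congr 2
      funext μ
      refine propext ⟨fun a => ⟨a, fun b => ?_⟩, fun a => a.1⟩
      have := two_le_ws (L := L) b
      omega
    have hp : proj (fun μ => ¬ has K μ) (x - y) ∈ mono (pat {j₀}) :=
      proj_mem_of (ZZ_pat h j₀ γ p (Submodule.sub_mem _ hx hy.1))
    have hge : proj (fun μ => ¬ has K μ) (x - y) ∈ mono fun μ => k ≤ ws (grd K L) μ := by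
      rw [map_sub]
      exact Submodule.sub_mem _ (mono_le (fun μ hμ => hμ.ge) hk')
        (mono_le (fun μ hμ => Nat.le_of_succ_le hμ) hy1)
    have := (init_le (f' := fun j => kill (O := O ⊕ J) K (f j)) (grd K L) j₀ hfK (grd_tv h hT j₀)
      hF₀ hp k).1 hr' hge
    have hz : proj (fun μ => ws (grd K L) μ = k) (proj (fun μ => ¬ has K μ) y) = 0 :=
      proj_eq_zero (mono_le (fun μ hμ => by omega) hy1)
    rwa [map_sub, map_sub, proj_eq_self hk', hz, sub_zero] at this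

variable (h₀ : Good Al (fun g => (c g, (grd K L g : ℤ))) δ₀ 0 f₀) (hT₀ : Tri Al δ₀ K L ρ)
  (hD : ∀ (k : ℕ), ∀ y ∈ mono fun μ => ws (grd K L) μ = k,
    Dloc δ ω f ∅ y - Dloc δ₀ 0 f₀ ∅ y ∈ mono fun μ => k < ws (grd K L) μ)
include h₀ hT₀ hD

/-- The graded pieces of the filtration. -/
theorem gr_piece (j₀ : J) (γ : Γ) (k : ℕ) :
    (∀ n, HasChi (Dloc δ₀ 0 f₀ ∅) (ZZ Al (fun g => (c g, (grd K L g : ℤ))) {j₀} ∅ (γ, (k : ℤ)))
        (rel f₀ ⊔ mono (has K)) n ↔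
      HasChi (Dloc δ ω f ∅) (fun p => ZZ Al c {j₀} ∅ γ p ⊓ mono (FF K L k))
        (rel f ⊔ mono (FF K L (k + 1))) n) ∧
    (Acy (Dloc δ₀ 0 f₀ ∅) (ZZ Al (fun g => (c g, (grd K L g : ℤ))) {j₀} ∅ (γ, (k : ℤ)))
        (rel f₀ ⊔ mono (has K)) ↔
      Acy (Dloc δ ω f ∅) (fun p => ZZ Al c {j₀} ∅ γ p ⊓ mono (FF K L k))
        (rel f ⊔ mono (FF K L (k + 1)))) := by
  have hm : ∀ p x, x ∈ ZZ Al (fun g => (c g, (grd K L g : ℤ))) {j₀} ∅ (γ, (k : ℤ)) p ↔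
      x ∈ ZZ Al c {j₀} ∅ γ p ∧ x ∈ mono fun μ => ws (grd K L) μ = k := by
    intro p x
    rw [ZZ_pair, Submodule.mem_inf]
    simp only [Nat.cast_inj]
  refine cx_congr (ses_FF h hT j₀ γ k).cxQ
    (h₀.isCx_kill (empty_subset _) _ hT₀.kAl hT₀.kst) (fun p x hx => ?_) (fun p x hx => ?_)
    (fun p x hx => ?_) (fun p x hx => ?_)
  · obtain ⟨a, b⟩ := (hm p x).1 hx
    exact ⟨a, mono_le (fun μ hμ => Or.inr hμ.ge) b⟩
  · refine ⟨proj (fun μ => ws (grd K L) μ = k) x, (hm p _).2 ⟨proj_mem_of hx.1, proj_mem x⟩,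
      Submodule.mem_sup_right ?_⟩
    have h1 : x - proj (fun μ => ws (grd K L) μ = k) x ∈
        mono fun μ => ¬ ws (grd K L) μ = k ∧ FF K L k μ := by
      rw [mono_and]
      exact ⟨sub_proj_mem x, Submodule.sub_mem _ hx.2 (proj_mem_of hx.2)⟩
    exact mono_le (fun μ hμ => hμ.2.imp_right fun a => by have := hμ.1; omega) h1
  · obtain ⟨a, b⟩ := (hm p x).1 hx
    exact gr_rel h hT hf a b
  · obtain ⟨a, b⟩ := (hm p x).1 hx
    rw [← neg_sub]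
    exact Submodule.neg_mem _ (Submodule.mem_sup_right
      (mono_le (fun μ hμ => Or.inr hμ) (hD k x b)))

/-- The degree zero piece. -/
theorem gr_base (j₀ : J) (γ : Γ) :
    (∀ n, HasChi (Dloc δ₀ 0 f₀ ∅) (ZZ Al (fun g => (c g, (grd K L g : ℤ))) {j₀} ∅ (γ, 0))
        (rel f₀ ⊔ mono (has fun g => K g ∨ g ∈ L)) n ↔
      HasChi (Dloc δ ω f ∅) (ZZ Al c {j₀} ∅ γ) (rel f ⊔ mono (has fun g => K g ∨ g ∈ L)) n) ∧
    (Acy (Dloc δ₀ 0 f₀ ∅) (ZZ Al (fun g => (c g, (grd K L g : ℤ))) {j₀} ∅ (γ, 0))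
        (rel f₀ ⊔ mono (has fun g => K g ∨ g ∈ L)) ↔
      Acy (Dloc δ ω f ∅) (ZZ Al c {j₀} ∅ γ) (rel f ⊔ mono (has fun g => K g ∨ g ∈ L))) := by
  have hm : ∀ p x, x ∈ ZZ Al (fun g => (c g, (grd K L g : ℤ))) {j₀} ∅ (γ, 0) p ↔
      x ∈ ZZ Al c {j₀} ∅ γ p ∧ x ∈ mono fun μ => ws (grd K L) μ = 0 := by
    intro p x
    rw [ZZ_pair, Submodule.mem_inf]
    simp only [Nat.cast_eq_zero]
  have kT : ∀ j, ¬ (K (tv j) ∨ tv j ∈ L) := fun j hk => h.alT j (kl_Al hT _ hk)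
  have kE : ∀ j, ¬ (K (ev j) ∨ ev j ∈ L) := fun j hk => h.alE j (kl_Al hT _ hk)
  refine cx_congr (h.isCx_kill (empty_subset _) _ (kl_Al hT) (kl_st hT))
    (h₀.isCx_kill (empty_subset _) _ (kl_Al hT₀) (kl_st hT₀)) (fun p x hx => ((hm p x).1 hx).1)
    (fun p x hx => ?_) (fun p x hx => ?_) (fun p x hx => ?_)
  · exact ⟨proj (fun μ => ws (grd K L) μ = 0) x, (hm p _).2 ⟨proj_mem_of hx, proj_mem x⟩,
      Submodule.mem_sup_right (mono_le (fun μ hμ => has_iff.2 hμ) (sub_proj_mem x))⟩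
  · have e0 : (fun j => kill (O := O ⊕ J) (fun g => K g ∨ g ∈ L) (f₀ j)) = f₀ := by
      funext j
      exact kill_f₀ (K' := fun g => K g ∨ g ∈ L) hf (fun g hg => hg) j
    have e1 : (fun j => kill (O := O ⊕ J) (fun g => K g ∨ g ∈ L) (f j)) = f₀ := by
      funext j
      exact kill_f hf j
    have a := kill_rel (K := fun g => K g ∨ g ∈ L) (x := x) (f := f₀) kT kE
    have b := kill_rel (K := fun g => K g ∨ g ∈ L) (x := x) (f := f) kT kE
    rw [e0] at a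
    rw [e1] at b
    exact a.trans b.symm
  · rw [← neg_sub]
    exact Submodule.neg_mem _ (Submodule.mem_sup_right
      (mono_le (fun μ hμ => has_iff.2 (ne_of_gt hμ)) (hD 0 x ((hm p x).1 hx).2)))

end

theorem ZZ_neg (gr : Gn E O J → ℕ) (J₀ J₁ : Finset J) (γ : Γ × ℤ) (hk : γ.2 < 0) (p : Bool)
    (B : Submodule ℂ (Sp (E ⊕ J) (O ⊕ J))) :
    ZZ Al (fun g => (c g, (gr g : ℤ))) J₀ J₁ γ p ≤ B := by
  obtain ⟨γ, k⟩ := γ
  rw [ZZ_pair]
  refine inf_le_right.trans (le_trans (mono_le (P' := fun _ => False) fun μ hμ => ?_) ?_)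
  · have : (0 : ℤ) ≤ k := hμ ▸ Int.natCast_nonneg _
    exact absurd hk (not_lt.2 this)
  · rw [mono_false]
    exact bot_le

theorem ZZ_ne (J₀ J₁ : Finset J) (γ : Γ × ℤ) (hk : γ.2 ≠ 0) (p : Bool) :
    ZZ Al (fun g => (c g, (grd K L g : ℤ))) J₀ J₁ γ p ≤
      rel f ⊔ mono (has fun g => K g ∨ g ∈ L) := by
  obtain ⟨γ, k⟩ := γ
  rw [ZZ_pair]
  refine inf_le_right.trans (le_trans (mono_le fun μ hμ => has_iff.2 fun h0 => hk ?_) le_sup_right)
  rw [h0] at hμ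
  exact hμ.symm

theorem FF_zero (Z : Bool → Submodule ℂ (Sp (E ⊕ J) (O ⊕ J))) :
    (fun p => Z p ⊓ mono (FF K L 0)) = Z := by
  funext p
  exact inf_eq_left.2 fun x _ => mem_mono.2 fun _ _ _ => Or.inr (Nat.zero_le _)

theorem negRec (hone : OneStmt) : NegRecStmt := by
  intro E O J Γ _ _ _ _ _ _ _ Al c δ ω f h j₀ K L ρ hT hω N hN l C e he hC
  simp only [FF_eq] at hN
  obtain ⟨δ₀, f₀, -, h₀, hf, hδ, -, hD⟩ := h.grPart (grd K L) (grd_tv h hT) (grd_ev h hT)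
    (grd_mono h hT) (words_le (fun μ hμ => le_trans (by norm_num) (two_le_ws hμ)) hω)
  have hT₀ : Tri Al δ₀ K L ρ := ⟨hT.nodup, hT.kAl,
    fun g hg => words_le (fun μ hμ => hμ.1) (hδ g _ (hT.kst g hg)).1, hT.lAl, hT.pos,
    fun g hg => words_le (fun μ hμ => hμ.1) (hδ g _ (hT.lst g hg)).1⟩
  have hD' := fun k y hy => (hD ∅ k y hy).2
  have hP := gr_piece h hT hf h₀ hT₀ hD' j₀
  have hB := gr_base h hT hf h₀ hT₀ hD' j₀
  obtain ⟨E', hE, hsh, hU⟩ := hone E O J (Γ × ℤ) Al _ δ₀ 0 f₀ h₀ j₀ K L ρ hT₀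
    (AddMonoidHom.snd Γ ℤ) (fun g hg _ => by
      show (0 : ℤ) < (grd K L g : ℕ)
      rw [grd_L hT hg]
      norm_num)
    (fun γ hγ p => ZZ_neg _ _ _ γ hγ p _) (fun γ => if γ.2 = 0 then e γ.1 else 0) (by
      rintro ⟨γ, k⟩
      by_cases hk : k = 0
      · subst hk
        simpa using ((hB γ).1 _).2 (he γ)
      · simp only [hk, if_false]
        exact (acy_of_le (ZZ_ne _ _ (γ, k) hk)).hasChi)
  have hE0 : ∀ γ (k : ℤ), E' (γ, k) ≠ 0 → k ∈ (range N).map Nat.castEmbedding := by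
    intro γ k hk
    by_contra hn
    refine hk ((hE (γ, k)).unique (Acy.hasChi ?_))
    rcases lt_or_ge k 0 with h0 | h0
    · exact acy_of_le fun p => ZZ_neg _ _ _ (γ, k) h0 p _
    · lift k to ℕ using h0
      have hk' : N ≤ k := by
        by_contra hlt
        exact hn (mem_map.2 ⟨k, mem_range.2 (not_le.1 hlt), rfl⟩)
      exact (hP γ k).2.2 ((ses_FF h hT j₀ γ k).acy_quo (hN k hk' γ) (hN (k + 1) (by omega) γ))
  have hchi : ∀ γ i k, N ≤ k + i → HasChi (Dloc δ ω f ∅)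
      (fun p => ZZ Al c {j₀} ∅ γ p ⊓ mono (FF K L k)) (rel f ⊔ mono (has K))
      (∑ j ∈ Ico k N, E' (γ, (j : ℕ))) := by
    intro γ i
    induction i with
    | zero =>
      intro k hk
      rw [Ico_eq_empty (by omega), sum_empty]
      exact (hN k hk γ).hasChi
    | succ i ih =>
      intro k hk
      rcases le_or_gt N k with h1 | h1
      · exact ih k (by omega)
      · rw [sum_eq_sum_Ico_succ_bot h1, add_comm]
        exact (ses_FF h hT j₀ γ k).chi_mid (ih (k + 1) (by omega)) (((hP γ k).1 _).1 (hE _))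
  obtain ⟨M, hM0, hM⟩ : ∃ M : ℤ, 0 ≤ M ∧ ∀ g, l (c g) ≤ M :=
    ⟨∑ g, |l (c g)|, sum_nonneg fun _ _ => abs_nonneg _, fun g => (le_abs_self _).trans
      (single_le_sum (f := fun g => |l (c g)|) (fun _ _ => abs_nonneg _) (mem_univ g))⟩
  have hA := hU {γ | γ.2 < 0 ∨ C + γ.2 * M < l γ.1} (by
      rintro g hg ⟨γ, k⟩ hγ
      have := hM g
      simp only [Set.mem_ofPred_eq, Prod.mk_sub_mk, grd_L hT hg, Nat.cast_one, map_sub] at hγ ⊢
      rcases hγ with h1 | h1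
      · left
        omega
      · right
        nlinarith) (by
      rintro ⟨γ, k⟩ hγ
      by_cases hk : k = 0
      · subst hk
        exact (hB γ).2.2 (hC γ (by simpa using hγ))
      · exact acy_of_le (ZZ_ne _ _ (γ, k) hk))
  refine ⟨fun γ => ∑ᶠ k, E' (γ, k), C + N * M, fun γ => ?_, ?_, fun γ hγ => ?_⟩
  · have := hchi γ N 0 (by omega)
    rw [FF_zero, ← range_eq_Ico] at this
    beta_reduce
    rwa [finsum_eq_sum_of_support_subset (s := (range N).map Nat.castEmbedding) _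
      (fun k hk => hE0 γ k hk), sum_map]
  · funext g
    have h1 := (shl_proj ((L.filter Sum.isLeft).map fun g => (c g, (grd K L g : ℤ))) E'
      (fun γ => (finite_toSet _).subset fun k hk => hE0 γ k hk) g).2
    have h2 := (shl_proj ((L.filter Sum.isRight).map fun g => (c g, (grd K L g : ℤ)))
      (fun γ => if γ.2 = 0 then e γ.1 else 0)
      (fun γ => (Set.finite_singleton 0).subset fun k hk => by
        by_contra hn
        exact hk (if_neg hn)) g).2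
    have h3 : (fun γ => ∑ᶠ k : ℤ, if k = 0 then e γ else 0) = e := by
      funext γ
      rw [finsum_eq_single _ 0 fun k hk => if_neg hk, if_pos rfl]
    rw [List.map_map] at h1 h2
    rw [hsh, ← h2] at h1
    simp only [h3] at h1
    exact h1
  · have hacy : ∀ i k, N ≤ k + i → Acy (Dloc δ ω f ∅)
        (fun p => ZZ Al c {j₀} ∅ γ p ⊓ mono (FF K L k)) (rel f ⊔ mono (has K)) := by
      intro i
      induction i with
      | zero => exact fun k hk => hN k hk γ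
      | succ i ih =>
        intro k hk
        rcases le_or_gt N k with h1 | h1
        · exact hN k h1 γ
        · refine (ses_FF h hT j₀ γ k).acy_mid (ih (k + 1) (by omega))
            ((hP γ k).2.1 (hA (γ, k) (Or.inr ?_)))
          have : (k : ℤ) ≤ N := by exact_mod_cast h1.le
          show C + (k : ℤ) * M < l γ
          nlinarith
    have := hacy N 0 (by omega)
    rwa [FF_zero] at this

end Pool.Agent.MP_8be872_ag.H87
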